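import Pool.Agent.Work.MP_738270_al.Solvable

/-!
# Palindromic width of solvable groups and commutators
-/

namespace Pool.Agent.Results.MP_738270_al.FiniteCommutatorWidth

open Pool.Agent.Work.MP_738270_al

universe u

/-- Let `G` be a solvable group of derived length at most `d` and let `X` be a finite generating
set of `G`. If every element of the commutator subgroup is a product of at most `c` elements, each
of which is a commutator or a palindrome over `X` (for instance, if `G` has commutator width at
most `c`), then `PW(G, X) ≤ (|X| + 1) (4 c + 1) ^ (d - 1)`. -/
theorem result (G : Type u) [Group G] (X : Set G) (hX : X.Finite)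
    (hgen : Subgroup.closure X = ⊤) (c d : ℕ) (hc : MixedWidthLE X c)
    (hd : derivedSeries G d = ⊥) :
    palWidth X ≤ ((X.ncard + 1) * (4 * c + 1) ^ (d - 1) : ℕ) :=
  palWidth_le_of_solvable hX hgen hc hd

end Pool.Agent.Results.MP_738270_al.FiniteCommutatorWidth
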