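import Pool.Agent.Work.MP_738270_al.Basic

/-!
# Every finitely generated group has finite palindromic width for some finite generating set

This answers Q1 affirmatively (for all finitely generated groups, in particular for all finitely
generated solvable groups of derived length at least three).
-/

open scoped Pointwise

namespace Pool.Agent.Results.MP_738270_al.SomeGeneratingSet

open Pool.Agent.Work.MP_738270_al

universe u

/-- Let `G` be a group with a finite generating set `S` (no further hypothesis on `G`). Then `S`
can be enlarged to a finite generating set `X` of `G` with `PW(G, X) ≤ |S|`. In particular every
finitely generated solvable group of derived length at least three (and every other finitely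
generated group) has finite palindromic width with respect to some finite generating set. -/
theorem result (G : Type u) [Group G] (S : Set G) (hS : S.Finite)
    (hgen : Subgroup.closure S = ⊤) :
    ∃ X : Set G, S ⊆ X ∧ X.Finite ∧ Subgroup.closure X = ⊤ ∧
      palWidth X ≤ S.ncard ∧ palWidth X < ⊤ := by
  have h := palWidth_le_card S hS hgen (X := S ∪ S * S) le_rfl
  refine ⟨S ∪ S * S, Set.subset_union_left, hS.union (hS.mul hS), ?_, h,
    lt_of_le_of_lt h (ENat.coe_lt_top _)⟩
  rw [eq_top_iff, ← hgen]
  exact Subgroup.closure_mono Set.subset_union_left

end Pool.Agent.Results.MP_738270_al.SomeGeneratingSet
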