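import Pool.Agent.Work.MP_738270_al.Free

/-!
# Finiteness of the palindromic width depends on the finite generating set
-/

namespace Pool.Agent.Results.MP_738270_al.WidthDependsOnSet

open Pool.Agent.Work.MP_738270_al

/-- In the free group of rank two with basis `a, b`, the palindromic width is infinite with respect
to `{a, b}` and at most two with respect to `{a, b, ab}`. So finiteness of `PW(G, X)` can depend on
the choice of the finite generating set `X`. -/
theorem result (a b : FreeGroup Bool) (ha : a = FreeGroup.of false) (hb : b = FreeGroup.of true) :
    Subgroup.closure {a, b} = ⊤ ∧ Subgroup.closure {a, b, a * b} = ⊤ ∧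
      palWidth ({a, b} : Set (FreeGroup Bool)) = ⊤ ∧
      palWidth ({a, b, a * b} : Set (FreeGroup Bool)) ≤ 2 := by
  subst ha
  subst hb
  have h2 : ({FreeGroup.of false, FreeGroup.of true, FreeGroup.of false * FreeGroup.of true} :
      Set (FreeGroup Bool)) = basis ∪ {FreeGroup.of false * FreeGroup.of true} := by
    unfold basis
    ext x
    simp only [Set.mem_insert_iff, Set.mem_singleton_iff, Set.mem_union]
    tauto
  refine ⟨closure_basis, ?_, palWidth_basis, ?_⟩
  · rw [h2, eq_top_iff, ← closure_basis]
    exact Subgroup.closure_mono Set.subset_union_left
  · rw [h2]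
    exact palWidth_triple

end Pool.Agent.Results.MP_738270_al.WidthDependsOnSet
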